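import Pool.Agent.Helper40.DZ.Stmts
import Pool.Agent.Helper16.BZ.XAHO

/-!
Module AFB: a minimal unipotent affine map of the torus is conjugate to a tower.
-/

open Finset Filter MeasureTheory Topology

namespace Pool.Agent.Helper40.DZ

open Pool.Agent.Helper16.AZ (T E Op mm)
open Pool.Agent.Helper16.CZ (Tw sg)
open Pool.Agent.Helper16.BZ (xaho_lin xaho_cont xaho_mul xaho_one)

/-- the kernels of the powers of a matrix -/
def afb_ker {r : ℕ} (N : Matrix (Fin r) (Fin r) ℤ) (k : ℕ) : Submodule ℤ (Fin r → ℤ) :=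
  LinearMap.ker (Matrix.vecMulLinear (N ^ k))

theorem afb_mem {r : ℕ} (N : Matrix (Fin r) (Fin r) ℤ) (k : ℕ) (X : Fin r → ℤ) :
    X ∈ afb_ker N k ↔ Matrix.vecMul X (N ^ k) = 0 := by
  rw [afb_ker, LinearMap.mem_ker]
  rfl

theorem afb_lin_add {r : ℕ} (B C : Matrix (Fin r) (Fin r) ℤ) (x : T r) :
    xaho_lin (B + C) x = xaho_lin B x + xaho_lin C x := by
  funext i
  simp only [xaho_lin, Pi.add_apply, Matrix.add_apply, add_smul, Finset.sum_add_distrib]

/-- the additive map of an integer matrix on the torus -/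
noncomputable def afb_hom {r : ℕ} (B : Matrix (Fin r) (Fin r) ℤ) : T r →+ T r where
  toFun x := xaho_lin B x
  map_zero' := by
    funext i
    simp [xaho_lin]
  map_add' x y := by
    funext i
    simp only [xaho_lin, Pi.add_apply, smul_add, Finset.sum_add_distrib]

/-- the data of the tower -/
theorem afb_data (hLAT : ST_LAT) {r : ℕ} (N : Matrix (Fin r) (Fin r) ℤ) (hN : N ^ r = 0) :
    ∃ (P Q D : Matrix (Fin r) (Fin r) ℤ) (lev : Fin r → ℕ), P * Q = 1 ∧ Q * P = 1 ∧
    D * P = P * N ∧ (∀ i j, D i j ≠ 0 → lev j < lev i) ∧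
    (∀ X : Fin r → ℤ, X ≠ 0 → (∀ j, X j ≠ 0 → lev j = 0) →
      Matrix.vecMul X P ≠ 0 ∧ Matrix.vecMul (Matrix.vecMul X P) N = 0) ∧
    ∀ (ℓ : ℕ) (X : Fin r → ℤ), X ≠ 0 → (∀ j, X j ≠ 0 → lev j = ℓ + 1) →
      ∃ j, lev j = ℓ ∧ Matrix.vecMul X D j ≠ 0 := by
  obtain ⟨b, lev, hb⟩ := hLAT r r (afb_ker N)
    (by
      rw [eq_bot_iff]
      intro X hX
      rw [afb_mem, pow_zero, Matrix.vecMul_one] at hX
      exact hX)
    (by
      intro j X hX
      rw [afb_mem] at hX ⊢
      rw [pow_succ, ← Matrix.vecMul_vecMul, hX, Matrix.zero_vecMul])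
    (by
      rw [eq_top_iff]
      intro X _
      rw [afb_mem, hN, Matrix.vecMul_zero])
    (by
      intro j a X ha hX
      rw [afb_mem] at hX ⊢
      rw [Matrix.smul_vecMul] at hX
      exact (smul_eq_zero.1 hX).resolve_left ha)
  obtain ⟨P, hP⟩ : ∃ P : Matrix (Fin r) (Fin r) ℤ, ∀ i, P i = b i := ⟨fun i => b i, fun _ => rfl⟩
  have hXP : ∀ X : Fin r → ℤ, Matrix.vecMul X P = ∑ i, X i • b i := by
    intro X
    rw [Matrix.vecMul_eq_sum]
    exact Finset.sum_congr rfl fun i _ => by rw [hP]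
  have hrepr : ∀ (X : Fin r → ℤ) (i : Fin r), b.repr (Matrix.vecMul X P) i = X i := by
    intro X i
    rw [hXP, Module.Basis.repr_sum_self]
  obtain ⟨Q, hQ⟩ : ∃ Q : Matrix (Fin r) (Fin r) ℤ, ∀ i j, Q i j = b.repr (Pi.single i 1) j :=
    ⟨fun i j => b.repr (Pi.single i 1) j, fun _ _ => rfl⟩
  have hQP : Q * P = 1 := by
    ext i k
    have h1 : (Q * P) i = Matrix.vecMul (Q i) P := rfl
    rw [h1, hXP]
    have h2 : (∑ j, Q i j • b j) = Pi.single i 1 :=
      (Finset.sum_congr rfl fun j _ => by rw [hQ]).trans (b.sum_repr (Pi.single i (1 : ℤ)))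
    rw [h2, Matrix.one_apply, Pi.single_apply]
    by_cases h : i = k
    · rw [if_pos h, if_pos h.symm]
    · rw [if_neg h, if_neg (Ne.symm h)]
  obtain ⟨D, hD⟩ : ∃ D : Matrix (Fin r) (Fin r) ℤ,
      ∀ i j, D i j = b.repr (Matrix.vecMul (b i) N) j :=
    ⟨fun i j => b.repr (Matrix.vecMul (b i) N) j, fun _ _ => rfl⟩
  have hDP : D * P = P * N := by
    ext i k
    have h1 : (D * P) i = Matrix.vecMul (D i) P := rfl
    have h2 : (P * N) i = Matrix.vecMul (P i) N := rfl
    rw [h1, h2, hXP, hP]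
    have h3 : (∑ j, D i j • b j) = Matrix.vecMul (b i) N :=
      (Finset.sum_congr rfl fun j _ => by rw [hD]).trans (b.sum_repr (Matrix.vecMul (b i) N))
    rw [h3]
  have hstep : ∀ (X : Fin r → ℤ) (k : ℕ), X ∈ afb_ker N (k + 1) ↔
      Matrix.vecMul X N ∈ afb_ker N k := by
    intro X k
    rw [afb_mem, afb_mem, pow_succ', Matrix.vecMul_vecMul]
  have hXDP : ∀ X : Fin r → ℤ, Matrix.vecMul (Matrix.vecMul X P) N =
      Matrix.vecMul (Matrix.vecMul X D) P := by
    intro X
    rw [Matrix.vecMul_vecMul, Matrix.vecMul_vecMul, hDP]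
  refine ⟨P, Q, D, lev, mul_eq_one_comm.1 hQP, hQP, hDP, ?_, ?_, ?_⟩
  · intro i j hij
    by_contra hlt
    have h1 : b i ∈ afb_ker N (lev i + 1) := by
      rw [hb]
      intro i' hi'
      rw [Module.Basis.repr_self, Finsupp.single_apply, if_neg]
      intro h
      rw [h] at hi'
      omega
    rw [hstep, hb] at h1
    apply hij
    rw [hD]
    exact h1 j (Nat.not_lt.1 hlt)
  · intro X hX h0
    have h1 : Matrix.vecMul X P ≠ 0 := by
      intro h
      apply hX
      funext i
      rw [← hrepr X i, h, map_zero]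
      rfl
    refine ⟨h1, ?_⟩
    have h2 : Matrix.vecMul X P ∈ afb_ker N 1 := by
      rw [hb]
      intro i hi
      rw [hrepr]
      by_contra hne
      have := h0 i hne
      omega
    rw [afb_mem, pow_one] at h2
    exact h2
  · intro ℓ X hX hsupp
    by_contra hno
    push Not at hno
    have h1 : Matrix.vecMul X P ∈ afb_ker N (ℓ + 1 + 1) := by
      rw [hb]
      intro i hi
      rw [hrepr]
      by_contra hne
      have := hsupp i hne
      omega
    rw [hstep, hXDP, hb] at h1
    have h2 : Matrix.vecMul (Matrix.vecMul X D) P ∈ afb_ker N ℓ := by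
      rw [hb]
      intro i hi
      rcases Nat.lt_or_ge ℓ (lev i) with h | h
      · exact h1 i h
      · rw [hrepr]
        exact hno i (le_antisymm h hi)
    rw [← hXDP, ← hstep, hb] at h2
    apply hX
    funext i
    by_contra hne
    have h3 := hsupp i hne
    have h4 := h2 i h3.ge
    rw [hrepr] at h4
    exact hne h4

theorem st_AFB (hLAT : ST_LAT) : ST_AFB := by
  intro r A β S hA
  obtain ⟨hA1, hA2, hA3⟩ := hA
  obtain ⟨P, Q, D, lev, hPQ, hQP, hDP, hlow, hzero, hup⟩ := afb_data hLAT (A - 1) hA1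
  have hlift : ∀ i, ∃ t : ℝ, (t : UnitAddCircle) = xaho_lin P β i := fun i =>
    QuotientAddGroup.mk_surjective (xaho_lin P β i)
  choose t ht using hlift
  have hmp : MeasurePreserving (xaho_lin P : T r → T r) (mm r) (mm r) := by
    have h1 : MeasurePreserving (afb_hom P) (mm r) (mm r) := by
      apply AddMonoidHom.measurePreserving
      · exact xaho_cont P
      · intro y
        refine ⟨xaho_lin Q y, ?_⟩
        change xaho_lin P (xaho_lin Q y) = y
        rw [xaho_mul, hPQ, xaho_one]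
      · rfl
    exact h1
  refine ⟨{ toFun := xaho_lin P
            invFun := xaho_lin Q
            left_inv := fun x => by rw [xaho_mul, hQP, xaho_one]
            right_inv := fun x => by rw [xaho_mul, hPQ, xaho_one]
            continuous_toFun := xaho_cont P
            continuous_invFun := xaho_cont Q }, lev, D, fun i _ => t i,
    fun x i => x i + (∑ j, D i j • x j) + (t i : UnitAddCircle), ?_, hmp, ?_⟩
  · refine ⟨⟨0, le_rfl, ?_⟩, ?_, fun _ _ _ _ => rfl, hlow, fun _ _ => rfl, ?_, hup⟩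
    · intro i x y
      simp
    · intro i j
      refine ⟨fun _ => 0, continuous_const, ?_⟩
      intro ε hε
      refine ⟨1, one_pos, ?_⟩
      intro x s _
      simp only [sub_self, mul_zero, abs_zero]
      positivity
    · intro X hX h0 x h
      obtain ⟨h1, h2⟩ := hzero X hX h0
      rw [Matrix.vecMul_sub, Matrix.vecMul_one, sub_eq_zero] at h2
      apply hA2 _ h1 h2
      rw [← h]
      have h3 : ∀ j, ((t j : ℝ) : UnitAddCircle) = ∑ k, P j k • β k := fun j => ht j
      simp only [h3, Matrix.vecMul, dotProduct, Finset.smul_sum, Finset.sum_smul, smul_smul]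
      exact Finset.sum_comm
  · intro x
    have hS : S x = xaho_lin A x + β := by
      funext i
      exact hA3 x i
    have hadd : ∀ y z : T r, xaho_lin P (y + z) = xaho_lin P y + xaho_lin P z := fun y z =>
      (afb_hom P).map_add y z
    have hPA : P * A = P + D * P := by
      rw [hDP, mul_sub, mul_one]
      abel
    funext i
    change xaho_lin P (S x) i = xaho_lin P x i + (xaho_lin D (xaho_lin P x) i) +
      (t i : UnitAddCircle)
    rw [hS, hadd, xaho_mul, hPA, afb_lin_add, xaho_mul, Pi.add_apply, Pi.add_apply, ht]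

end Pool.Agent.Helper40.DZ
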