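import Pool.Agent.Helper33.DZ.Stmts2

namespace Pool.Agent.Helper33.DZ

theorem st_HLOW (_h1 : ST_ANTI) (h2 : ST_ALG1) : ST_HLOW := by
  intro w c hw hc i hi hiw hx
  -- vanishing of the high coefficients
  have hA : ∀ n, w - 2 * i < n → c n = 0 := by
    intro n hn
    rcases Nat.even_or_odd n with he | ho
    · rcases Nat.lt_or_ge n w with hlt | hge
      · obtain ⟨p, hp⟩ := hw
        obtain ⟨q, hq⟩ := he
        have h3 : n = w - 2 * (p - q) := by omega
        rw [h3]
        exact hx (p - q) (by omega) (by omega)
      · exact hc.big n hge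
    · exact hc.odd n ho
  have hH : ∀ b, b < 2 * i → hh w c (w - b) = 0 := by
    intro b hb
    refine Finset.sum_eq_zero fun n _ => ?_
    rcases Nat.lt_or_ge n (w - b) with h | h
    · rw [Nat.choose_eq_zero_of_lt h]; simp
    · rw [hA n (by omega), mul_zero]
  have hH2 : hh w c (w - 2 * i) = c (w - 2 * i) := by
    unfold hh
    rw [Finset.sum_eq_single (w - 2 * i)]
    · rw [Nat.choose_self]; simp
    · intro n _ hne
      rcases Nat.lt_or_ge n (w - 2 * i) with h | h
      · rw [Nat.choose_eq_zero_of_lt h]; simp
      · rw [hA n (by omega), mul_zero]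
    · intro h
      exact absurd (Finset.mem_range.mpr (by omega)) h
  have hH3 : hh w c (w - (2 * i + 1)) = ((w - 2 * i : ℕ) : ℚ) * c (w - 2 * i) := by
    unfold hh
    rw [Finset.sum_eq_single (w - 2 * i)]
    · have e : w - 2 * i = (w - (2 * i + 1)) + 1 := by omega
      rw [e, Nat.choose_succ_self_right]
    · intro n _ hne
      rcases Nat.lt_or_ge n (w - (2 * i + 1)) with h | h
      · rw [Nat.choose_eq_zero_of_lt h]; simp
      · rcases Nat.lt_or_ge (w - 2 * i) n with h' | h'
        · rw [hA n h', mul_zero]
        · have hodd : Odd n := by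
            obtain ⟨p, hp⟩ := hw
            exact ⟨p - i - 1, by omega⟩
          rw [hc.odd n hodd, mul_zero]
    · intro h
      exact absurd (Finset.mem_range.mpr (by omega)) h
  -- odd coefficients
  have hodd : ∀ b, b ≤ w → Odd b → hh w c b = hh w c (w - b) := by
    intro b hb ho
    have := hc.rel b hb
    rw [hc.odd b ho] at this
    linarith
  have hL : ∀ b, b ≤ 2 * i → hh w c b = 0 := by
    intro b
    induction b using Nat.strong_induction_on with
    | _ b ih =>
      intro hb
      rcases Nat.even_or_odd b with he | ho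
      · have h3 := h2 w c hw hc b (by omega)
        rw [Finset.sum_range_succ, Finset.sum_eq_zero] at h3
        · have h4 : ((-1 : ℚ)) ^ (b + 1) = -1 := (he.add_one).neg_one_pow
          rw [h4, Nat.sub_self, Nat.choose_zero_right] at h3
          push_cast at h3
          linarith
        · intro b' hb'
          rw [Finset.mem_range] at hb'
          rw [ih b' hb' (by omega), hH b' (by omega)]
          simp
      · have h5 : b ≠ 2 * i := by
          rintro rfl
          exact absurd ho (by simp)
        rw [hodd b (by omega) ho]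
        exact hH b (by omega)
  have h3 := h2 w c hw hc (2 * i + 2) (by omega)
  rw [Finset.sum_range_succ, Finset.sum_range_succ, Finset.sum_range_succ,
    Finset.sum_eq_zero] at h3
  swap
  · intro b hb
    rw [Finset.mem_range] at hb
    rw [hL b (by omega), hH b (by omega)]
    simp
  have e1 : ((-1 : ℚ)) ^ (2 * i + 1) = -1 := (odd_two_mul_add_one i).neg_one_pow
  have e2 : ((-1 : ℚ)) ^ (2 * i + 1 + 1) = 1 := by rw [pow_succ, e1]; norm_num
  have e3 : ((-1 : ℚ)) ^ (2 * i + 2 + 1) = -1 := by rw [pow_succ, e2]; norm_num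
  rw [hL (2 * i) le_rfl, hH2, hodd (2 * i + 1) (by omega) (odd_two_mul_add_one i), hH3, e1, e2, e3,
    Nat.sub_self, Nat.choose_zero_right] at h3
  have e4 : 2 * i + 2 - 2 * i = 2 := by omega
  have e5 : 2 * i + 2 - (2 * i + 1) = 1 := by omega
  rw [e4, e5, Nat.choose_one_right] at h3
  have e6 : ((w - (2 * i + 1) : ℕ) : ℚ) = ((w - 2 * i : ℕ) : ℚ) - 1 := by
    have : w - 2 * i = (w - (2 * i + 1)) + 1 := by omega
    rw [this]; push_cast; ring
  rw [e6, Nat.cast_choose_two] at h3
  rw [Nat.cast_choose_two]
  push_cast at h3 ⊢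
  linarith

end Pool.Agent.Helper33.DZ
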