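import Pool.Agent.Helper40.DZ.Stmts

/-!
Module LAT: a basis adapted to a chain of primitive lattices.
-/

open Finset

namespace Pool.Agent.Helper40.DZ

section

variable {K : Type} [CommRing K] [IsDomain K] [IsPrincipalIdealRing K]
  {M : Type} [AddCommGroup M] [Module K M] [Module.Finite K M]

/-- families adapted to a chain of primitive lattices -/
theorem lat_step (Λ : ℕ → Submodule K M) (h0 : Λ 0 = ⊥) (hmono : ∀ j, Λ j ≤ Λ (j + 1))
    (hsat : ∀ (j : ℕ) (a : K) (x : M), a ≠ 0 → a • x ∈ Λ j → x ∈ Λ j) (n : ℕ) :
    ∃ (ι : Type) (_ : Fintype ι) (b : ι → M) (lev : ι → ℕ),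
    LinearIndependent K b ∧ (∀ i, lev i < n) ∧
    ∀ k ≤ n, Submodule.span K (b '' {i | lev i < k}) = Λ k := by
  induction n with
  | zero =>
    refine ⟨Empty, inferInstance, fun i => i.elim, fun i => i.elim, linearIndependent_empty_type,
      fun i => i.elim, ?_⟩
    intro k hk
    obtain rfl : k = 0 := by omega
    have h1 : (fun i : Empty => (i.elim : M)) '' {i | (i.elim : ℕ) < 0} = ∅ := by
      ext x
      simp
    rw [h1, Submodule.span_empty, h0]
  | succ n ih =>
    obtain ⟨ι, hι, b, lev, hb, hlev, hspan⟩ := ih
    let R : Submodule K (M ⧸ Λ n) := (Λ (n + 1)).map (Λ n).mkQ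
    have htf : Module.IsTorsionFree K (M ⧸ Λ n) := by
      apply Module.IsTorsionFree.of_smul_eq_zero
      intro a y hy
      obtain ⟨x, rfl⟩ := (Λ n).mkQ_surjective y
      by_cases ha : a = 0
      · exact Or.inl ha
      · right
        rw [← map_smul, Submodule.mkQ_apply, Submodule.Quotient.mk_eq_zero] at hy
        rw [Submodule.mkQ_apply, Submodule.Quotient.mk_eq_zero]
        exact hsat n a x ha hy
    have hfree0 : Module.Free K (M ⧸ Λ n) := inferInstance
    have hfree : Module.Free K R := inferInstance
    have hfin : Module.Finite K R := inferInstance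
    let B := Module.Free.chooseBasis K R
    let κ := Module.Free.ChooseBasisIndex K R
    have hκ : Fintype κ := inferInstance
    have hlift : ∀ j : κ, ∃ c : M, c ∈ Λ (n + 1) ∧ (Λ n).mkQ c = B j := by
      intro j
      obtain ⟨c, hc1, hc2⟩ := (B j).2
      exact ⟨c, hc1, hc2⟩
    choose c hc1 hc2 using hlift
    refine ⟨ι ⊕ κ, inferInstance, Sum.elim b c, Sum.elim lev (fun _ => n), ?_, ?_, ?_⟩
    · rw [Fintype.linearIndependent_iff]
      intro g hg
      rw [Fintype.sum_sum_type] at hg
      simp only [Sum.elim_inl, Sum.elim_inr] at hg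
      have hb0 : ∀ i, (Λ n).mkQ (b i) = 0 := by
        intro i
        rw [Submodule.mkQ_apply, Submodule.Quotient.mk_eq_zero, ← hspan n le_rfl]
        exact Submodule.subset_span ⟨i, hlev i, rfl⟩
      have h2 : ∑ j, g (Sum.inr j) • (B j : M ⧸ Λ n) = 0 := by
        have h3 := congrArg (Λ n).mkQ hg
        rw [map_add, map_sum, map_sum, map_zero] at h3
        have h4 : ∑ i, (Λ n).mkQ (g (Sum.inl i) • b i) = 0 :=
          Finset.sum_eq_zero fun i _ => by rw [map_smul, hb0 i, smul_zero]
        rw [h4, zero_add] at h3
        rw [← h3]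
        exact Finset.sum_congr rfl fun j _ => by rw [map_smul, hc2]
      have h5 : ∑ j, g (Sum.inr j) • B j = 0 := by
        apply Subtype.ext
        rw [AddSubmonoidClass.coe_finsetSum]
        exact h2
      have h6 : ∀ j, g (Sum.inr j) = 0 :=
        (Fintype.linearIndependent_iff.1 B.linearIndependent) (fun j => g (Sum.inr j)) h5
      have h7 : ∑ i, g (Sum.inl i) • b i = 0 := by
        have h8 : ∑ j, g (Sum.inr j) • c j = 0 :=
          Finset.sum_eq_zero fun j _ => by rw [h6 j, zero_smul]
        rw [h8, add_zero] at hg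
        exact hg
      have h9 := (Fintype.linearIndependent_iff.1 hb) (fun i => g (Sum.inl i)) h7
      rintro (i | j)
      · exact h9 i
      · exact h6 j
    · rintro (i | j)
      · exact Nat.lt_succ_of_lt (hlev i)
      · exact Nat.lt_succ_self n
    · intro k hk
      rcases Nat.lt_or_ge n k with hkn | hkn
      · obtain rfl : k = n + 1 := by omega
        apply le_antisymm
        · rw [Submodule.span_le]
          rintro x ⟨i | j, hi, rfl⟩
          · have h1 : b i ∈ Λ n := by
              rw [← hspan n le_rfl]
              exact Submodule.subset_span ⟨i, hlev i, rfl⟩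
            exact hmono n h1
          · exact hc1 j
        · intro x hx
          have h1 : (Λ n).mkQ x ∈ R := ⟨x, hx, rfl⟩
          have h2 : (∑ j, B.repr ⟨(Λ n).mkQ x, h1⟩ j • (B j : M ⧸ Λ n)) = (Λ n).mkQ x := by
            have h3 := B.sum_repr ⟨(Λ n).mkQ x, h1⟩
            have h4 := congrArg (Subtype.val) h3
            rw [AddSubmonoidClass.coe_finsetSum] at h4
            exact h4
          set a := fun j => B.repr ⟨(Λ n).mkQ x, h1⟩ j with ha
          have h5 : x - ∑ j, a j • c j ∈ Λ n := by
            rw [← Submodule.Quotient.mk_eq_zero, ← Submodule.mkQ_apply, map_sub, map_sum,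
              sub_eq_zero, ← h2]
            exact Finset.sum_congr rfl fun j _ => by rw [map_smul, hc2]
          have h5' : x - ∑ j, a j • c j ∈ Submodule.span K (b '' {i | lev i < n}) :=
            (hspan n le_rfl).symm ▸ h5
          have h6 : Submodule.span K (b '' {i | lev i < n}) ≤
              Submodule.span K (Sum.elim b c '' {i | Sum.elim lev (fun _ => n) i < n + 1}) := by
            apply Submodule.span_mono
            rintro y ⟨i, hi, rfl⟩
            exact ⟨Sum.inl i, Nat.lt_succ_of_lt hi, rfl⟩
          have h7 : ∑ j, a j • c j ∈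
              Submodule.span K (Sum.elim b c '' {i | Sum.elim lev (fun _ => n) i < n + 1}) := by
            apply Submodule.sum_mem
            intro j _
            apply Submodule.smul_mem
            exact Submodule.subset_span ⟨Sum.inr j, Nat.lt_succ_self n, rfl⟩
          have h8 := Submodule.add_mem _ (h6 h5') h7
          rw [sub_add_cancel] at h8
          exact h8
      · rw [← hspan k hkn]
        congr 1
        ext y
        constructor
        · rintro ⟨i | j, hi, rfl⟩
          · exact ⟨i, hi, rfl⟩
          · exact absurd hi (Nat.not_lt.2 hkn)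
        · rintro ⟨i, hi, rfl⟩
          exact ⟨Sum.inl i, hi, rfl⟩

end

theorem st_LAT : ST_LAT := by
  intro r n Λ h0 hmono hn hsat
  obtain ⟨ι, hι, b, lev, hb, hlev, hspan⟩ := lat_step Λ h0 hmono hsat n
  have htop : ⊤ ≤ Submodule.span ℤ (Set.range b) := by
    rw [← hn, ← hspan n le_rfl]
    exact Submodule.span_mono (Set.image_subset_range _ _)
  let B : Module.Basis ι ℤ (Fin r → ℤ) := Module.Basis.mk hb htop
  have hBb : ∀ i, B i = b i := fun i => Module.Basis.mk_apply hb htop i
  have hcard : Fintype.card ι = r := by
    have h1 := Module.finrank_eq_card_basis B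
    rw [Module.finrank_fin_fun] at h1
    exact h1.symm
  let e : ι ≃ Fin r := Fintype.equivFinOfCardEq hcard
  refine ⟨B.reindex e, fun i => lev (e.symm i), ?_⟩
  have hmono' : ∀ k l, k ≤ l → Λ k ≤ Λ l := fun k l h => monotone_nat_of_le_succ hmono h
  have hall : ∀ k, Λ k = Submodule.span ℤ (B '' {i | lev i < k}) := by
    intro k
    have h1 : B '' {i | lev i < k} = b '' {i | lev i < k} := by
      congr 1
      funext i
      exact hBb i
    rw [h1]
    rcases Nat.lt_or_ge n k with hkn | hkn
    · have h2 : {i | lev i < k} = {i | lev i < n} := by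
        ext i
        exact ⟨fun _ => hlev i, fun h => lt_trans h hkn⟩
      rw [h2, hspan n le_rfl]
      exact le_antisymm (by rw [hn]; exact le_top) (hmono' n k hkn.le)
    · exact (hspan k hkn).symm
  intro j X
  rw [hall j, Module.Basis.mem_span_image]
  constructor
  · intro h i hi
    by_contra hne
    rw [Module.Basis.repr_reindex_apply] at hne
    have h2 : e.symm i ∈ ((B.repr X).support : Set ι) := by
      rw [Finset.mem_coe, Finsupp.mem_support_iff]
      exact hne
    exact absurd (h h2) (Nat.not_lt.2 hi)
  · intro h i hi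
    rw [Finset.mem_coe, Finsupp.mem_support_iff] at hi
    by_contra hne
    have h2 : j ≤ lev i := Nat.not_lt.1 hne
    apply hi
    have h4 : j ≤ lev (e.symm (e i)) := by
      rw [e.symm_apply_apply]
      exact h2
    have h3 := h (e i) h4
    rw [Module.Basis.repr_reindex_apply, e.symm_apply_apply] at h3
    exact h3

end Pool.Agent.Helper40.DZ
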