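import Pool.Agent.Helper33.DZ.Stmts

namespace Pool.Agent.Helper33.DZ

theorem vu_mem_tt {m j : ℕ} (hj : j < m - 1) :
    tt m j ∈ Submodule.span ℚ (tt m '' (Finset.range (m - 1) : Set ℕ)) :=
  Submodule.subset_span ⟨j, by simpa using hj, rfl⟩

theorem vu_mem_uu {m j : ℕ} (hj : j < m - 1) :
    uu m j ∈ Submodule.span ℚ (uu m '' (Finset.range (m - 1) : Set ℕ)) :=
  Submodule.subset_span ⟨j, by simpa using hj, rfl⟩

theorem vu_zero (m : ℕ) : uu m 0 = tt m 0 := by simp [uu, tt]

theorem vu_big {m i : ℕ} (h : m < 2 * i + 1) (hi : i ≠ 0) : uu m i = tt m i := by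
  simp [uu, tt, hi, not_le.mpr h]

theorem vu_small (hSTUF : ST_STUF) {m i : ℕ} (hi : i ≠ 0) (him : i < m - 1)
    (h : 2 * i + 1 ≤ m) : uu m i = tt m i + tt m (m - 1 - i) + tt m 0 := by
  have hj : m - 1 - i ≠ 0 := by omega
  have e1 : 2 * (m - 1 - i) + 1 = 2 * m - 2 * i - 1 := by omega
  have e2 : 2 * m - 2 * (m - 1 - i) - 1 = 2 * i + 1 := by omega
  have e3 : (2 * i + 1) + (2 * m - 2 * i - 1) = 2 * m := by omega
  have key := hSTUF (2 * i + 1) (2 * m - 2 * i - 1) (by omega) (by omega)
  simp only [uu, tt, hi, if_false, h, if_true, hj, e1, e2]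
  rw [key, e3]

theorem st_VU (hVT : ST_VT) (hSTUF : ST_STUF) : ST_VU := by
  intro m hm
  rw [hVT m hm]
  apply le_antisymm
  · rw [Submodule.span_le]
    rintro _ ⟨i, hi, rfl⟩
    have hi' : i < m - 1 := by simpa using hi
    by_cases h0 : i = 0
    · subst h0
      rw [← vu_zero]
      exact vu_mem_uu hi'
    · by_cases hb : m < 2 * i + 1
      · rw [← vu_big hb h0]
        exact vu_mem_uu hi'
      · have hb' : 2 * i + 1 ≤ m := not_lt.mp hb
        have key := vu_small hSTUF h0 hi' hb'
        have hz : tt m 0 ∈ Submodule.span ℚ (uu m '' (Finset.range (m - 1) : Set ℕ)) := by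
          rw [← vu_zero]
          exact vu_mem_uu (by omega)
        rcases Nat.lt_or_ge (2 * i + 1) m with hl | hl
        · have hj : tt m (m - 1 - i) = uu m (m - 1 - i) :=
            (vu_big (by omega) (by omega)).symm
          have e : tt m i = uu m i - uu m (m - 1 - i) - tt m 0 := by
            rw [← hj]; linarith
          rw [SetLike.mem_coe, e]
          exact Submodule.sub_mem _ (Submodule.sub_mem _ (vu_mem_uu hi')
            (vu_mem_uu (by omega))) hz
        · have hj : m - 1 - i = i := by omega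
          rw [hj] at key
          have e : tt m i = (1 / 2 : ℚ) • (uu m i - tt m 0) := by
            rw [key, Rat.smul_def]
            push_cast
            ring
          rw [SetLike.mem_coe, e]
          exact Submodule.smul_mem _ _ (Submodule.sub_mem _ (vu_mem_uu hi') hz)
  · rw [Submodule.span_le]
    rintro _ ⟨i, hi, rfl⟩
    have hi' : i < m - 1 := by simpa using hi
    by_cases h0 : i = 0
    · subst h0
      rw [vu_zero]
      exact vu_mem_tt hi'
    · by_cases hb : m < 2 * i + 1
      · rw [vu_big hb h0]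
        exact vu_mem_tt hi'
      · rw [vu_small hSTUF h0 hi' (not_lt.mp hb)]
        exact Submodule.add_mem _ (Submodule.add_mem _ (vu_mem_tt hi')
          (vu_mem_tt (by omega))) (vu_mem_tt (by omega))

end Pool.Agent.Helper33.DZ
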